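import Mathlib

/-!
# Weierstrass forms of plane cubics, the pencil of cubics

The surfaces `z ^ 2 = a w + f`, `w ^ 2 = b z + g` and the cubics `C_l`; definitions without further
imports.
-/

set_option autoImplicit false

namespace CX.KSq

open MvPolynomial

/-- After a linear change of the coordinates and up to a constant factor the form `P` is
`y ^ 2 z - x ^ 3 - a x z ^ 2 - b z ^ 3`. -/
def IsWei {O : Type*} [Field O] (P : MvPolynomial (Fin 3) O) (a b : O) : Prop :=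
  ∃ (N : Matrix (Fin 3) (Fin 3) O) (c : O), N.det ≠ 0 ∧ c ≠ 0 ∧
    bind₁ (fun i => ∑ j, C (N i j) * X j) P =
      C c * (X 1 ^ 2 * X 2 - X 0 ^ 3 - C a * X 0 * X 2 ^ 2 - C b * X 2 ^ 3)

/-- The plane cubic `l ^ 3 z b ^ 2 - 4 l ^ 2 g + 4 l f - z a ^ 2 = 0`, where `z = X 2`. -/
noncomputable def pencil {O : Type*} [Field O] (a b f g : MvPolynomial (Fin 3) O) (l : O) :
    MvPolynomial (Fin 3) O :=
  C (l ^ 3) * X 2 * b ^ 2 - C (4 * l ^ 2) * g + C (4 * l) * f - X 2 * a ^ 2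

/-- One of the cubics is nonsingular, and two of them have different `j`-invariants. -/
def HasModuli {O : Type*} [Field O] (a b f g : MvPolynomial (Fin 3) O) : Prop :=
  ∃ l₁ l₂ a₁ b₁ a₂ b₂ : O, IsWei (pencil a b f g l₁) a₁ b₁ ∧ IsWei (pencil a b f g l₂) a₂ b₂ ∧
    4 * a₁ ^ 3 + 27 * b₁ ^ 2 ≠ 0 ∧ a₁ ^ 3 * b₂ ^ 2 ≠ a₂ ^ 3 * b₁ ^ 2

/-- The derivatives of `P` in the directions of `X 0` and `X 1` are linearly independent: `P` is not
a form in `X 2` and one linear form. -/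
def Indep2 {O : Type*} [Field O] (P : MvPolynomial (Fin 3) O) : Prop :=
  ∀ α β : O, C α * pderiv 0 P + C β * pderiv 1 P = 0 → α = 0 ∧ β = 0

end CX.KSq
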