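import Mathlib

/-!
# Invariants of quartic polynomials, the family of quartics

The surfaces `t z ^ 2 = t a w + f`, `t w ^ 2 = t b z + g` and the curves `y ^ 2 = disc l`; definitions
without further imports.
-/

set_option autoImplicit false

namespace CX.KSq

open Polynomial

variable {O : Type*} [Field O]

/-- The discriminant with respect to `t` of the curve `l ^ 3 t b ^ 2 - 4 l ^ 2 g + 4 l f - t a ^ 2 = 0`,
where `f = f0 t ^ 2 + f2 (s) t + f4 (s)` and `g = g0 t ^ 2 + g2 (s) t + g4 (s)`; a polynomial in `s` of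
degree at most four. -/
noncomputable def disc (a b f2 g2 f4 g4 : O[X]) (f0 g0 l : O) : O[X] :=
  (C (l ^ 3) * b ^ 2 - a ^ 2 + C (4 * l) * f2 - C (4 * l ^ 2) * g2) ^ 2 -
    C (64 * l ^ 2 * (f0 - l * g0)) * (f4 - C l * g4)

/-- The quadratic invariant of the binary quartic form which belongs to the polynomial `q` of degree at
most four. -/
noncomputable def inv2 (q : O[X]) : O :=
  12 * q.coeff 4 * q.coeff 0 - 3 * q.coeff 3 * q.coeff 1 + q.coeff 2 ^ 2

/-- The cubic invariant; the discriminant is `4 inv2 ^ 3 - inv3 ^ 2`, up to a constant factor. -/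
noncomputable def inv3 (q : O[X]) : O :=
  72 * q.coeff 4 * q.coeff 2 * q.coeff 0 + 9 * q.coeff 3 * q.coeff 2 * q.coeff 1 -
    27 * q.coeff 4 * q.coeff 1 ^ 2 - 27 * q.coeff 0 * q.coeff 3 ^ 2 - 2 * q.coeff 2 ^ 3

/-- One of the curves `y ^ 2 = disc l` is nonsingular, and two of them have different
`j`-invariants. -/
def HasModuli2 (a b f2 g2 f4 g4 : O[X]) (f0 g0 : O) : Prop :=
  ∃ l₁ l₂ : O, 4 * inv2 (disc a b f2 g2 f4 g4 f0 g0 l₁) ^ 3 ≠ inv3 (disc a b f2 g2 f4 g4 f0 g0 l₁) ^ 2 ∧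
    inv2 (disc a b f2 g2 f4 g4 f0 g0 l₁) ^ 3 * inv3 (disc a b f2 g2 f4 g4 f0 g0 l₂) ^ 2 ≠
      inv2 (disc a b f2 g2 f4 g4 f0 g0 l₂) ^ 3 * inv3 (disc a b f2 g2 f4 g4 f0 g0 l₁) ^ 2

/-- The derivatives of the form `f = f0 t ^ 2 + f2 (s) t + f4 (s)` of degree four (`s` has the degree
one, `t` the degree two) in the directions of the two homogeneous coordinates of the `s`-line are
linearly independent: `f` is not a form in `t` and one linear form. -/
def IndepS (f2 f4 : O[X]) : Prop :=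
  ∀ α β : O, (C α - C β * X) * derivative f2 + C (2 * β) * f2 = 0 →
    (C α - C β * X) * derivative f4 + C (4 * β) * f4 = 0 → α = 0 ∧ β = 0

end CX.KSq
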