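import Mathlib
import Pool.Agent.Helper40.CX.Good2

/-!
# KS: the value of a linear form at a generic point of the plane
-/

namespace CX

namespace Pool.Agent.Helper50.KS

universe u

open MvPolynomial in
theorem lin_ne {k R : Type u} [Field k] [Field R] [Algebra k R] {s t : R} (hst : AlgebraicIndependent k ![s, t]) {a : MvPolynomial (Fin 3) k}
    (ha : a.IsHomogeneous 1) (ha0 : a ≠ 0) : MvPolynomial.aeval ![s, t, 1] a ≠ 0 := by
  intro h
  have h1 : MvPolynomial.aeval ![s, t] (MvPolynomial.aeval (![X 0, X 1, 1] : Fin 3 → MvPolynomial (Fin 2) k) a) = 0 := by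
    rw [← h, MvPolynomial.comp_aeval_apply]
    congr 2
    funext i
    fin_cases i <;> simp
  have h2 := (algebraicIndependent_iff.1 hst) _ h1
  -- a = c0 X0 + c1 X1 + c2 X2
  have key : a = C (coeff (Finsupp.single 0 1) a) * X 0 + C (coeff (Finsupp.single 1 1) a) * X 1 + C (coeff (Finsupp.single 2 1) a) * X 2 := by
    ext m
    by_cases hm : m.degree = 1
    · obtain ⟨i, rfl⟩ : ∃ i, m = Finsupp.single i 1 := by
        rw [Finsupp.degree_eq_sum, Fin.sum_univ_three] at hm
        have h4 : (m 0 = 1 ∧ m 1 = 0 ∧ m 2 = 0) ∨ (m 0 = 0 ∧ m 1 = 1 ∧ m 2 = 0) ∨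
            (m 0 = 0 ∧ m 1 = 0 ∧ m 2 = 1) := by omega
        rcases h4 with ⟨h5, h6, h7⟩ | ⟨h5, h6, h7⟩ | ⟨h5, h6, h7⟩
        · refine ⟨0, Finsupp.ext fun i => ?_⟩
          fin_cases i <;> simp [h5, h6, h7]
        · refine ⟨1, Finsupp.ext fun i => ?_⟩
          fin_cases i <;> simp [h5, h6, h7]
        · refine ⟨2, Finsupp.ext fun i => ?_⟩
          fin_cases i <;> simp [h5, h6, h7]
      fin_cases i <;> simp [coeff_C_mul, coeff_X, Finsupp.single_eq_single_iff]
    · rw [ha.coeff_eq_zero hm]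
      have h3 : ∀ i : Fin 3, coeff m (X i : MvPolynomial (Fin 3) k) = 0 := by
        intro i
        rw [coeff_X]
        rw [if_neg]
        rintro rfl
        exact hm (by simp)
      simp [coeff_C_mul, h3]
  apply ha0
  rw [key] at h2
  simp only [map_add, map_mul, aeval_X, MvPolynomial.algHom_C, Matrix.cons_val_zero, Matrix.cons_val_one, Matrix.cons_val] at h2
  have e0 := congrArg (MvPolynomial.eval (![0, 0] : Fin 2 → k)) h2
  have e1 := congrArg (MvPolynomial.eval (![1, 0] : Fin 2 → k)) h2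
  have e2 := congrArg (MvPolynomial.eval (![0, 1] : Fin 2 → k)) h2
  simp [MvPolynomial.algebraMap_eq] at e0 e1 e2
  rw [e0] at e1 e2
  rw [add_zero] at e1 e2
  rw [key, e0, e1, e2]
  simp

end Pool.Agent.Helper50.KS

end CX
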