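import Mathlib
import Pool.Agent.Helper40.CX.H50KS.WeiDef
import Pool.Agent.Helper40.CX.H83KPA.Coord
import Pool.Agent.Helper40.CX.H70KX.Dbl

/-!
# Cubic forms with linearly independent derivatives in two directions
-/

set_option autoImplicit false

namespace CX.KSq

open MvPolynomial CX.Pool.Agent.Helper83.KPA
open CX.Pool.Agent.Helper83.PC (cub)
open CX.Pool.Agent.Helper70.KX (Cyl)

variable {k : Type} [Field k]

lemma eq_cubP {P : MvPolynomial (Fin 3) k} (hP : P.IsHomogeneous 3) : P = cubP (cf P) := by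
  have h := cf_spec hP (R := MvPolynomial (Fin 3) k) X
  rw [aeval_X_left_apply] at h
  exact h

/-- A form with independent derivatives is not constant in a direction of the affine plane. -/
theorem Indep2.not_cyl {P : MvPolynomial (Fin 3) k} (hP : P.IsHomogeneous 3) (h : Indep2 P) :
    ¬ Cyl (cf P) := by
  rintro ⟨α, β, hαβ, e0, e1, e2, e3, e4, e5⟩
  have h1 : C α * pderiv 0 P + C β * pderiv 1 P = 0 := by
    have key : ∀ c : Fin 10 → k, C α * pderiv 0 (cubP c) + C β * pderiv 1 (cubP c) =
        C (3 * α * c 0 + β * c 1) * X 0 ^ 2 + 2 * C (α * c 1 + β * c 3) * X 0 * X 1 +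
        C (2 * α * c 2 + β * c 4) * X 0 * X 2 + C (α * c 3 + 3 * β * c 6) * X 1 ^ 2 +
        C (α * c 4 + 2 * β * c 7) * X 1 * X 2 + C (α * c 5 + β * c 8) * X 2 ^ 2 := by
      intro c
      have two : (C 2 : MvPolynomial (Fin 3) k) = 2 := map_ofNat C 2
      have three : (C 3 : MvPolynomial (Fin 3) k) = 3 := map_ofNat C 3
      unfold cubP cub
      simp [pderiv_X, C_add, C_mul, two, three]
      ring
    rw [eq_cubP hP, key, e0, e1, e2, e3, e4, e5]
    simp
  obtain ⟨ha, hb⟩ := h α β h1
  rcases hαβ with h2 | h2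
  · exact h2 ha
  · exact h2 hb

end CX.KSq
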