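import Mathlib
import Pool.Agent.Helper40.CX.H50KS.Slope
import Pool.Agent.Helper40.CX.Good2

namespace CX

/-!
# KS: the slope is transcendental over `k`; the field of a pair and its involution
-/

namespace Pool.Agent.Helper50.KS

namespace Quart

section abs

variable {k R F N : Type*} [Field k] [IsAlgClosed k] [Field R] [Good R] [Field F] [Algebra R F]
  [Field N] [Algebra R N] [Algebra k R] [Algebra k N] [IsScalarTower k R N]
  (Q : Quart R F) (φ : Fin 4 ≃ (F →ₐ[R] N))

variable (k) in
/-- the slope is transcendental over the algebraically closed field `k` -/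
theorem sl_transc {i j : Fin 4} (h : Q.sl φ i j ≠ 0) : Transcendental k (Q.sl φ i j) := by
  intro halg
  obtain ⟨c, hc⟩ : ∃ c : k, algebraMap k N c = Q.sl φ i j := by
    have h1 : (minpoly k (Q.sl φ i j)).degree = 1 :=
      IsAlgClosed.degree_eq_one_of_irreducible k (minpoly.irreducible halg.isIntegral)
    obtain ⟨c, hc⟩ := minpoly.mem_range_of_degree_eq_one k (Q.sl φ i j) h1
    exact ⟨c, hc⟩
  exact Q.sl_not_mem φ h (algebraMap k R c) (by rw [← IsScalarTower.algebraMap_apply, hc])

end abs

section inv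

variable {R F N : Type*} [Field R] [Good R] [Field F] [Algebra R F]
  [Field N] [Algebra R N] [Algebra F N] [IsScalarTower R F N] [Normal R N]
  (Q : Quart R F) (φ : Fin 4 ≃ (F →ₐ[R] N))

/-- the involution `τ ↦ - τ` of the field of the pair -/
theorem exists_iota {i j : Fin 4} (hij : i ≠ j) :
    ∃ ι : IntermediateField.adjoin R {Q.sl φ i j} ≃ₐ[R] IntermediateField.adjoin R {Q.sl φ i j},
      (∀ x, ι (ι x) = x) ∧
      ((ι (IntermediateField.AdjoinSimple.gen R (Q.sl φ i j)) : IntermediateField.adjoin R {Q.sl φ i j}) : N) =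
        -Q.sl φ i j ∧
      ∀ σ : N ≃ₐ[R] N, σ (Q.sl φ i j) = -Q.sl φ i j →
        ∀ x : IntermediateField.adjoin R {Q.sl φ i j}, σ (x : N) = ((ι x : IntermediateField.adjoin R {Q.sl φ i j}) : N) := by
  obtain ⟨σ, hσ⟩ := Q.exists_neg φ hij
  set τ := Q.sl φ i j with hτ
  set K := IntermediateField.adjoin R {τ} with hK
  have hmap : ∀ ρ : N ≃ₐ[R] N, ρ τ = -τ → K.map ρ.toAlgHom = K := by
    intro ρ hρ
    rw [hK, IntermediateField.adjoin_map, Set.image_singleton]
    have h1 : ρ.toAlgHom τ = -τ := hρ
    rw [h1]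
    apply le_antisymm
    · rw [IntermediateField.adjoin_le_iff, Set.singleton_subset_iff]
      exact neg_mem (IntermediateField.subset_adjoin R _ rfl)
    · rw [IntermediateField.adjoin_le_iff, Set.singleton_subset_iff]
      have h2 : -τ ∈ IntermediateField.adjoin R {-τ} := IntermediateField.subset_adjoin R _ rfl
      have h3 := neg_mem h2
      rwa [neg_neg] at h3
  let e : K ≃ₐ[R] K := (IntermediateField.equivMap K σ.toAlgHom).trans (IntermediateField.equivOfEq (hmap σ hσ))
  have he : ∀ x : K, ((e x : K) : N) = σ (x : N) := fun x => rfl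
  have hgen : ∀ ρ : N ≃ₐ[R] N, ρ τ = -τ → ∀ x : K, ρ (x : N) = ((e x : K) : N) := by
    intro ρ hρ x
    rw [he]
    have h1 : (ρ.toAlgHom.comp K.val) = (σ.toAlgHom.comp K.val) := by
      refine IntermediateField.algHom_ext_of_eq_adjoin R hK ?_
      intro y hy
      rw [Set.mem_singleton_iff] at hy
      show ρ y = σ y
      rw [hy, hρ, hσ]
    exact DFunLike.congr_fun h1 x
  refine ⟨e, ?_, ?_, hgen⟩
  · intro x
    apply Subtype.ext
    rw [he, he]
    have h1 : ((σ * σ).toAlgHom.comp K.val) = K.val := by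
      refine IntermediateField.algHom_ext_of_eq_adjoin R hK ?_
      intro y hy
      rw [Set.mem_singleton_iff] at hy
      show σ (σ y) = y
      rw [hy, hσ, map_neg, hσ, neg_neg]
    exact DFunLike.congr_fun h1 x
  · rw [he]
    show σ τ = -τ
    exact hσ

end inv

end Quart

end Pool.Agent.Helper50.KS

end CX
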