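import Mathlib
import Pool.Agent.Helper40.CX.H50KS.LQ
import Pool.Agent.Helper40.CX.Good2

namespace CX

/-!
# KS: a smooth plane cubic is irreducible
-/

set_option linter.unusedSectionVars false

namespace Pool.Agent.Helper50.KS

open Polynomial
open Pool.Agent.Helper15.KP (cub PS PT Dsc Dbin)

variable {K : Type*} [Field K]

/-- the cubic as a polynomial in `s` (outer variable) over `K[t]` -/
noncomputable def pol (c : Fin 10 → K) : K[X][X] :=
  C (C (c 0)) * X ^ 3 + C (C (c 1) * X + C (c 2)) * X ^ 2 + C (C (c 3) * X ^ 2 + C (c 4) * X + C (c 5)) * X +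
    C (C (c 6) * X ^ 3 + C (c 7) * X ^ 2 + C (c 8) * X + C (c 9))

theorem co3 {R : Type*} [CommRing R] (a b c d : R) : (C a * X ^ 3 + C b * X ^ 2 + C c * X + C d : R[X]).coeff 3 = a := by
  simp [coeff_X, coeff_C]

theorem co2 {R : Type*} [CommRing R] (a b c d : R) : (C a * X ^ 3 + C b * X ^ 2 + C c * X + C d : R[X]).coeff 2 = b := by
  simp [coeff_X, coeff_C]

theorem co1 {R : Type*} [CommRing R] (a b c d : R) : (C a * X ^ 3 + C b * X ^ 2 + C c * X + C d : R[X]).coeff 1 = c := by
  simp [coeff_X]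

theorem co0 {R : Type*} [CommRing R] (a b c d : R) : (C a * X ^ 3 + C b * X ^ 2 + C c * X + C d : R[X]).coeff 0 = d := by
  simp

theorem pol_coeff3 (c : Fin 10 → K) : (pol c).coeff 3 = C (c 0) := co3 _ _ _ _

theorem pol_coeff2 (c : Fin 10 → K) : (pol c).coeff 2 = C (c 1) * X + C (c 2) := co2 _ _ _ _

theorem pol_coeff1 (c : Fin 10 → K) : (pol c).coeff 1 = C (c 3) * X ^ 2 + C (c 4) * X + C (c 5) := co1 _ _ _ _

theorem pol_coeff0 (c : Fin 10 → K) : (pol c).coeff 0 = C (c 6) * X ^ 3 + C (c 7) * X ^ 2 + C (c 8) * X + C (c 9) :=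
  co0 _ _ _ _

theorem pol_natDegree (c : Fin 10 → K) (h0 : c 0 ≠ 0) : (pol c).natDegree = 3 := by
  unfold pol
  have : C (c 0) ≠ 0 := by simpa using h0
  compute_degree!

/-- a factorization with a factor of degree one in `s` -/
theorem lq_of_factor (c : Fin 10 → K) (h0 : c 0 ≠ 0) (f g : K[X][X]) (hfg : pol c = f * g)
    (hf : f.natDegree = 1) (hg : g.natDegree = 2) : ∃ l q, c = lq l q := by
  set f1 := f.coeff 1 with hf1
  set f0 := f.coeff 0 with hf0
  set g2 := g.coeff 2 with hg2
  set g1 := g.coeff 1 with hg1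
  set g0 := g.coeff 0 with hg0
  have hf' : f = C f1 * X + C f0 := eq_X_add_C_of_natDegree_le_one hf.le
  have hg' : g = C g2 * X ^ 2 + C g1 * X + C g0 := by
    apply eq_quadratic_of_degree_le_two
    exact degree_le_of_natDegree_le hg.le
  have hprod : pol c = C (f1 * g2) * X ^ 3 + C (f1 * g1 + f0 * g2) * X ^ 2 + C (f1 * g0 + f0 * g1) * X +
      C (f0 * g0) := by
    rw [hfg, hf', hg']
    simp only [C_mul, C_add]
    ring
  have e3 : f1 * g2 = C (c 0) := by
    have h := congrArg (fun p => coeff p 3) hprod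
    simp only [pol_coeff3] at h
    rw [h, co3]
  have e2 : f1 * g1 + f0 * g2 = C (c 1) * X + C (c 2) := by
    have h := congrArg (fun p => coeff p 2) hprod
    simp only [pol_coeff2] at h
    rw [h, co2]
  have e1 : f1 * g0 + f0 * g1 = C (c 3) * X ^ 2 + C (c 4) * X + C (c 5) := by
    have h := congrArg (fun p => coeff p 1) hprod
    simp only [pol_coeff1] at h
    rw [h, co1]
  have e0 : f0 * g0 = C (c 6) * X ^ 3 + C (c 7) * X ^ 2 + C (c 8) * X + C (c 9) := by
    have h := congrArg (fun p => coeff p 0) hprod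
    simp only [pol_coeff0] at h
    rw [h, co0]
  have hu : IsUnit (f1 * g2) := by
    rw [e3]
    exact isUnit_C.2 (isUnit_iff_ne_zero.2 h0)
  obtain ⟨α, hα, hfα⟩ := isUnit_iff.1 (isUnit_of_mul_isUnit_left hu)
  obtain ⟨α', hα', hgα⟩ := isUnit_iff.1 (isUnit_of_mul_isUnit_right hu)
  have hα0 : α ≠ 0 := hα.ne_zero
  have hα0' : α' ≠ 0 := hα'.ne_zero
  rw [← hfα] at e3 e2 e1
  rw [← hgα] at e3 e2
  -- degrees
  have hd : f0.natDegree ≤ 1 := by
    by_contra hcon
    push Not at hcon
    set d := f0.natDegree with hdd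
    have hlin : (C (c 1) * X + C (c 2) : K[X]).natDegree ≤ 1 := by compute_degree
    have hquad : (C (c 3) * X ^ 2 + C (c 4) * X + C (c 5) : K[X]).natDegree ≤ 2 := by compute_degree
    have hcubd : (C (c 6) * X ^ 3 + C (c 7) * X ^ 2 + C (c 8) * X + C (c 9) : K[X]).natDegree ≤ 3 := by
      compute_degree
    have k1 : g1.natDegree = d := by
      have h1 : C α * g1 = (C (c 1) * X + C (c 2)) - f0 * C α' := by rw [← e2]; ring
      have h2 : (C α * g1).natDegree = g1.natDegree := natDegree_C_mul hα0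
      have h3 : (f0 * C α').natDegree = d := natDegree_mul_C hα0'
      rw [← h2, h1, natDegree_sub_eq_right_of_natDegree_lt (by rw [h3]; omega), h3]
    have hf00 : f0 ≠ 0 := by
      intro h
      rw [hdd, h, natDegree_zero] at hcon
      omega
    have hg10 : g1 ≠ 0 := by
      intro h
      rw [h, natDegree_zero] at k1
      omega
    have k2 : (f0 * g1).natDegree = 2 * d := by
      rw [natDegree_mul hf00 hg10, k1]
      ring
    have k3 : g0.natDegree = 2 * d := by
      have h1 : C α * g0 = (C (c 3) * X ^ 2 + C (c 4) * X + C (c 5)) - f0 * g1 := by rw [← e1]; ring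
      have h2 : (C α * g0).natDegree = g0.natDegree := natDegree_C_mul hα0
      rw [← h2, h1, natDegree_sub_eq_right_of_natDegree_lt (by rw [k2]; omega), k2]
    have hg00 : g0 ≠ 0 := by
      intro h
      rw [h, natDegree_zero] at k3
      omega
    have k4 : (f0 * g0).natDegree = 3 * d := by
      rw [natDegree_mul hf00 hg00, k3]
      ring
    rw [e0] at k4
    omega
  have hd1 : g1.natDegree ≤ 1 := by
    have h1 : C α * g1 = (C (c 1) * X + C (c 2)) - f0 * C α' := by rw [← e2]; ring
    have h2 : (C α * g1).natDegree = g1.natDegree := natDegree_C_mul hα0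
    rw [← h2, h1]
    refine (natDegree_sub_le _ _).trans (max_le (by compute_degree) ?_)
    rw [natDegree_mul_C hα0']
    exact hd
  have hd0 : g0.natDegree ≤ 2 := by
    have h1 : C α * g0 = (C (c 3) * X ^ 2 + C (c 4) * X + C (c 5)) - f0 * g1 := by rw [← e1]; ring
    have h2 : (C α * g0).natDegree = g0.natDegree := natDegree_C_mul hα0
    rw [← h2, h1]
    refine (natDegree_sub_le _ _).trans (max_le (by compute_degree) ?_)
    exact natDegree_mul_le.trans (by omega)
  obtain ⟨β, γ, hf0'⟩ : ∃ β γ : K, f0 = C β * X + C γ := ⟨_, _, eq_X_add_C_of_natDegree_le_one hd⟩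
  obtain ⟨q1, q2, hg1'⟩ : ∃ β γ : K, g1 = C β * X + C γ := ⟨_, _, eq_X_add_C_of_natDegree_le_one hd1⟩
  obtain ⟨q3, q4, q5, hg0'⟩ : ∃ x y z : K, g0 = C x * X ^ 2 + C y * X + C z :=
    ⟨_, _, _, eq_quadratic_of_degree_le_two (degree_le_of_natDegree_le hd0)⟩
  rw [hf0', hg1'] at e2 e1
  rw [hf0', hg0'] at e0
  rw [hg0'] at e1
  have E0 : α * α' = c 0 := by
    have h := congrArg (fun p => coeff p 0) e3
    simpa using h
  have E1 : α * q1 + β * α' = c 1 := by
    have h := congrArg (fun p => coeff p 1) e2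
    simpa [coeff_X, coeff_C] using h
  have E2 : α * q2 + γ * α' = c 2 := by
    have h := congrArg (fun p => coeff p 0) e2
    simpa using h
  have e1' : C 0 * X ^ 3 + C (α * q3 + β * q1) * X ^ 2 + C (α * q4 + β * q2 + γ * q1) * X + C (α * q5 + γ * q2) =
      C 0 * X ^ 3 + C (c 3) * X ^ 2 + C (c 4) * X + C (c 5) := by
    simp only [C_mul, C_add, C_0]
    linear_combination e1
  have E3 : α * q3 + β * q1 = c 3 := by
    have h := congrArg (fun p => coeff p 2) e1'
    simp only [co2] at h
    exact h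
  have E4 : α * q4 + β * q2 + γ * q1 = c 4 := by
    have h := congrArg (fun p => coeff p 1) e1'
    simp only [co1] at h
    exact h
  have E5 : α * q5 + γ * q2 = c 5 := by
    have h := congrArg (fun p => coeff p 0) e1'
    simp only [co0] at h
    exact h
  have e0' : C (β * q3) * X ^ 3 + C (β * q4 + γ * q3) * X ^ 2 + C (β * q5 + γ * q4) * X + C (γ * q5) =
      C (c 6) * X ^ 3 + C (c 7) * X ^ 2 + C (c 8) * X + C (c 9) := by
    rw [← e0]
    simp only [C_mul, C_add]
    ring
  have E6 : β * q3 = c 6 := by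
    have h := congrArg (fun p => coeff p 3) e0'
    simp only [co3] at h
    exact h
  have E7 : β * q4 + γ * q3 = c 7 := by
    have h := congrArg (fun p => coeff p 2) e0'
    simp only [co2] at h
    exact h
  have E8 : β * q5 + γ * q4 = c 8 := by
    have h := congrArg (fun p => coeff p 1) e0'
    simp only [co1] at h
    exact h
  have E9 : γ * q5 = c 9 := by
    have h := congrArg (fun p => coeff p 0) e0'
    simp only [co0] at h
    exact h
  refine ⟨![α, β, γ], ![α', q1, q2, q3, q4, q5], ?_⟩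
  funext i
  fin_cases i
  · exact E0.symm
  · exact E1.symm
  · exact E2.symm
  · exact E3.symm
  · exact E4.symm
  · exact E5.symm
  · exact E6.symm
  · exact E7.symm
  · exact E8.symm
  · exact E9.symm

/-- A plane cubic with nonzero discriminant is irreducible. -/
theorem pol_irreducible (c : Fin 10 → K) (h0 : c 0 ≠ 0) (hd : Dsc c ≠ 0) : Irreducible (pol c) := by
  have hdeg := pol_natDegree c h0
  have hlead : IsUnit (pol c).leadingCoeff := by
    rw [leadingCoeff, hdeg, pol_coeff3]
    exact isUnit_C.2 (isUnit_iff_ne_zero.2 h0)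
  have hne : pol c ≠ 0 := by
    intro h
    rw [h, natDegree_zero] at hdeg
    omega
  refine ⟨?_, ?_⟩
  · intro h
    have := natDegree_eq_zero_of_isUnit h
    omega
  · intro f g hfg
    have hf0 : f ≠ 0 := by
      rintro rfl
      rw [zero_mul] at hfg
      exact hne hfg
    have hg0 : g ≠ 0 := by
      rintro rfl
      rw [mul_zero] at hfg
      exact hne hfg
    have hsum : f.natDegree + g.natDegree = 3 := by
      rw [← natDegree_mul hf0 hg0, ← hfg, hdeg]
    have hl : f.leadingCoeff * g.leadingCoeff = (pol c).leadingCoeff := by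
      rw [hfg, leadingCoeff_mul]
    have hlu : IsUnit (f.leadingCoeff * g.leadingCoeff) := by rw [hl]; exact hlead
    have unit_of : ∀ p : K[X][X], p.natDegree = 0 → IsUnit p.leadingCoeff → IsUnit p := by
      intro p hp hu
      rw [eq_C_of_natDegree_eq_zero hp]
      rw [leadingCoeff, hp] at hu
      exact isUnit_C.2 hu
    have h4 : f.natDegree = 0 ∨ f.natDegree = 1 ∨ f.natDegree = 2 ∨ f.natDegree = 3 := by omega
    rcases h4 with h | h | h | h
    · exact Or.inl (unit_of f h (isUnit_of_mul_isUnit_left hlu))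
    · exfalso
      obtain ⟨l, q, hc⟩ := lq_of_factor c h0 f g hfg h (by omega)
      rw [hc] at hd
      exact hd (Dsc_lq l q)
    · exfalso
      obtain ⟨l, q, hc⟩ := lq_of_factor c h0 g f (by rw [hfg, mul_comm]) (by omega) h
      rw [hc] at hd
      exact hd (Dsc_lq l q)
    · exact Or.inr (unit_of g (by omega) (isUnit_of_mul_isUnit_right hlu))

end Pool.Agent.Helper50.KS

end CX
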