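import Mathlib
import Pool.Agent.Helper9.NS
import Pool.Agent.Helper40.CX.H15KP.Defs2
import Pool.Agent.Helper40.CX.H50KS.Orbit
import Pool.Agent.Helper40.CX.H50KS.Abs
import Pool.Agent.Helper40.CX.Good2

namespace CX

/-!
# KS: the structure QD from a quartic extension and a normal closure
-/

set_option linter.unusedSectionVars false

namespace Pool.Agent.Helper50.KS

open Polynomial
open VC VF Function Pool.Agent.Helper21.TO Pool.Agent.Helper15.GT
open Pool.Agent.Helper15.KP (cub PS PT Dsc Dbin HF Tv CD QD)

universe u

section closure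

/-- a finite normal extension -/
theorem exists_N (k R F : Type u) [Field k] [Field R] [Field F] [Algebra R F] [FiniteDimensional R F]
    [Algebra.IsSeparable R F] [Algebra k R] [Algebra k F] [IsScalarTower k R F] :
    ∃ (N : Type u) (_ : Field N) (_ : Algebra k N) (_ : Algebra R N) (_ : Algebra F N)
      (_ : IsScalarTower k R N) (_ : IsScalarTower R F N), Normal R N ∧ FiniteDimensional R N ∧
      Algebra.IsSeparable R N := by
  have h1 : ∀ f : F →ₐ[R] AlgebraicClosure F, Algebra.IsSeparable R f.fieldRange := fun f =>
    AlgEquiv.Algebra.isSeparable (AlgEquiv.ofInjectiveField f)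
  have h2 : Algebra.IsSeparable R (IntermediateField.normalClosure R F (AlgebraicClosure F)) :=
    IntermediateField.isSeparable_iSup _ (h := h1)
  refine ⟨IntermediateField.normalClosure R F (AlgebraicClosure F), inferInstance, inferInstance, inferInstance,
    inferInstance, inferInstance, inferInstance, inferInstance, inferInstance, h2⟩

end closure

section main

variable {k R F N : Type u} [Field k] [IsAlgClosed k] [Good k] [Field R] [Good R] [Field F] [Field N]
  [Algebra k R] [Algebra k F] [Algebra k N] [Algebra R F] [Algebra R N] [Algebra F N] [IsScalarTower k R F]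
  [IsScalarTower k R N] [IsScalarTower R F N] [Normal R N] [FiniteDimensional R N] [Algebra.IsSeparable R N]
  (Q : Quart R F) (φ : Fin 4 ≃ (F →ₐ[R] N))

omit [IsAlgClosed k] [Good k] [Good R] [IsScalarTower k R F] [IsScalarTower R F N] [Algebra R F] [Field F]
  [Algebra k F] [Algebra F N] [Normal R N] [FiniteDimensional R N] in
theorem range_base {v : Fin 2 → R} (hgen : IntermediateField.adjoin k (Set.range v) = ⊤) (z : N) :
    z ∈ Set.range (algebraMap R N) ↔ z ∈ IntermediateField.adjoin k {algebraMap R N (v 0), algebraMap R N (v 1)} := by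
  have h1 : (⊤ : IntermediateField k R).map (IsScalarTower.toAlgHom k R N) =
      IntermediateField.adjoin k {algebraMap R N (v 0), algebraMap R N (v 1)} := by
    rw [← hgen, IntermediateField.adjoin_map]
    congr 1
    ext y
    simp [Fin.exists_fin_two, eq_comm]
  rw [← h1]
  constructor
  · rintro ⟨r, rfl⟩
    exact ⟨r, trivial, rfl⟩
  · rintro ⟨r, -, rfl⟩
    exact ⟨r, rfl⟩

/-- the homomorphism forgetting the base field -/
def rsHom : (N ≃ₐ[R] N) →* (N ≃ₐ[k] N) where
  toFun σ := σ.restrictScalars k
  map_one' := rfl
  map_mul' _ _ := rfl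

/-- the action on the four embeddings -/
def actHom : (N ≃ₐ[R] N) →* Equiv.Perm (Fin 4) where
  toFun := perm φ
  map_one' := Quart.perm_one φ
  map_mul' := perm_mul φ

theorem fix0 (z : N) : (∀ g : N ≃ₐ[R] N, perm φ g 0 = 0 → g z = z) ↔ z ∈ Set.range (φ 0) := by
  have hG : IsGalois R N := ⟨⟩
  constructor
  · intro h
    have h1 : z ∈ (φ 0).fieldRange := by
      rw [← IsGalois.fixedField_fixingSubgroup (φ 0).fieldRange, IntermediateField.mem_fixedField_iff]
      intro σ hσ
      apply h
      rw [IntermediateField.mem_fixingSubgroup_iff] at hσ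
      apply φ.injective
      ext x
      rw [← perm_spec]
      exact hσ _ ⟨x, rfl⟩
    exact h1
  · rintro ⟨x, rfl⟩ g hg
    rw [perm_spec, hg]

theorem fix_pair {i j : Fin 4} (hij : i ≠ j) (h : Q.sl φ i j ≠ 0) (z : N) :
    (∀ g : N ≃ₐ[R] N, (perm φ g i = i ∧ perm φ g j = j) ∨ (perm φ g i = j ∧ perm φ g j = i) → g z = z) ↔
      z ∈ Set.range ((IntermediateField.adjoin R {Q.sl φ i j}).val) := by
  constructor
  · intro h1
    exact ⟨⟨z, Q.mem_adjoin φ hij h z h1⟩, rfl⟩
  · rintro ⟨x, rfl⟩ g hg
    have h2 := (Q.stab φ hij h g).2 hg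
    have h3 : (g.toAlgHom.comp (IntermediateField.adjoin R {Q.sl φ i j}).val) =
        (IntermediateField.adjoin R {Q.sl φ i j}).val := by
      refine IntermediateField.algHom_ext_of_eq_adjoin R rfl ?_
      intro y hy
      rw [Set.mem_singleton_iff] at hy
      show g y = y
      rw [hy, h2]
    exact DFunLike.congr_fun h3 x

/-- the data of the surface of pairs -/
theorem exists_cd {i j : Fin 4} (hij : i ≠ j) (h : Q.sl φ i j ≠ 0) {s t : R}
    (hst : AlgebraicIndependent k ![s, t]) (hgen : IntermediateField.adjoin k (Set.range ![t, s]) = ⊤)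
    (c : Fin 10 → k[X]) (h0 : c 0 ≠ 0) (hb : Dbin c ≠ 0) (hd : Dsc c ≠ 0)
    (heq : ∀ τ : N, algebraMap R N Q.b ^ 2 * τ ^ 6 - 4 * algebraMap R N Q.g * τ ^ 4 +
      4 * algebraMap R N Q.f * τ ^ 2 - algebraMap R N Q.a ^ 2 = 0 →
      cub (fun i => aeval (τ ^ 2) (c i)) (algebraMap R N s) (algebraMap R N t) = 0) :
    ∃ D : CD k (IntermediateField.adjoin R {Q.sl φ i j}), D.c = c ∧
      ∀ σ : N ≃ₐ[R] N, σ (Q.sl φ i j) = -Q.sl φ i j →
        ∀ x : IntermediateField.adjoin R {Q.sl φ i j}, σ (x : N) = ((D.ι x : IntermediateField.adjoin R {Q.sl φ i j}) : N) := by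
  obtain ⟨io, hι2, hιτ, hισ⟩ := Q.exists_iota φ hij
  have hτ : Transcendental k (Q.sl φ i j) := Q.sl_transc k φ h
  have hcub := heq (Q.sl φ i j) (Q.sl_res φ h)
  generalize hτdef : Q.sl φ i j = τ at *
  let E := IntermediateField.adjoin R {τ}
  have hst' : AlgebraicIndependent k ![algebraMap R N s, algebraMap R N t] := by
    have h1 := hst.map' (f := IsScalarTower.toAlgHom k R N) (algebraMap R N).injective
    convert h1 using 1
    funext i
    fin_cases i <;> rfl
  have hτs := indep_s hτ hst' c h0 hb hd hcub
  let τE : E := IntermediateField.AdjoinSimple.gen R τ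
  have hτE : (τE : N) = τ := rfl
  let valk : E →ₐ[k] N := E.val.restrictScalars k
  refine ⟨{
    τ := τE
    s := algebraMap R E s
    t := algebraMap R E t
    ι := io.restrictScalars k
    c := c
    ind := ?_
    gen := ?_
    ιτ := ?_
    ιs := ?_
    ιt := ?_
    eqn := ?_
    c0 := h0
    bin := hb
    dsc := hd }, rfl, ?_⟩
  · -- independence
    apply AlgebraicIndependent.of_comp valk
    convert hτs using 1
    funext i
    fin_cases i <;> rfl
  · -- generation
    rw [eq_top_iff]
    set K := IntermediateField.adjoin k ({τE, algebraMap R E s, algebraMap R E t} : Set E) with hK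
    have hR : ∀ r : R, algebraMap R E r ∈ K := by
      intro r
      have hr : r ∈ IntermediateField.adjoin k (Set.range ![t, s]) := by
        rw [hgen]
        exact IntermediateField.mem_top
      have h1 : (IntermediateField.adjoin k (Set.range ![t, s])).map (IsScalarTower.toAlgHom k R E) ≤ K := by
        rw [IntermediateField.adjoin_map, IntermediateField.adjoin_le_iff]
        rintro _ ⟨_, ⟨i, rfl⟩, rfl⟩
        fin_cases i
        · exact IntermediateField.subset_adjoin k _ (by simp)
        · exact IntermediateField.subset_adjoin k _ (by simp)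
      exact h1 ⟨r, hr, rfl⟩
    let K' : IntermediateField R E :=
      { K.toSubfield with
        algebraMap_mem' := hR }
    have hK' : K' = ⊤ := by
      have h2 : IntermediateField.adjoin R {τE} = ⊤ := by
        apply IntermediateField.lift_injective
        rw [IntermediateField.lift_adjoin, IntermediateField.lift_top, Set.image_singleton, hτE]
      rw [eq_top_iff, ← h2, IntermediateField.adjoin_le_iff, Set.singleton_subset_iff]
      show τE ∈ K
      exact IntermediateField.subset_adjoin k _ (by simp)
    intro x _
    have hx : x ∈ K' := by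
      rw [hK']
      exact IntermediateField.mem_top
    exact hx
  · apply Subtype.ext
    show ((io τE : E) : N) = -τ
    exact hιτ
  · show io (algebraMap R E s) = algebraMap R E s
    exact io.commutes s
  · show io (algebraMap R E t) = algebraMap R E t
    exact io.commutes t
  · -- the equation
    apply (valk : E →+* N).injective
    rw [map_zero, ← hcub]
    unfold cub
    have hc : ∀ i, (valk : E →+* N) (aeval (τE ^ 2) (c i)) = aeval (τ ^ 2) (c i) := by
      intro i
      have h1 := aeval_algHom_apply valk (τE ^ 2) (c i)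
      rw [map_pow] at h1
      exact h1.symm
    have hs : (valk : E →+* N) (algebraMap R E s) = algebraMap R N s := rfl
    have ht : (valk : E →+* N) (algebraMap R E t) = algebraMap R N t := rfl
    simp only [map_add, map_mul, map_pow, hc, hs, ht]
  · intro σ hσ x
    exact hισ σ hσ x

end main

end Pool.Agent.Helper50.KS

end CX
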