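import Mathlib
import Pool.Agent.Helper40.CX.H50KS.Qd0
import Pool.Agent.Helper40.CX.Good2

namespace CX

/-!
# KS: the structure QD
-/

set_option linter.unusedSectionVars false

namespace Pool.Agent.Helper50.KS

open Polynomial
open VC VF Function Pool.Agent.Helper21.TO Pool.Agent.Helper15.GT
open Pool.Agent.Helper15.KP (cub PS PT Dsc Dbin HF Tv CD QD)

universe u

namespace Quart

variable {R F N : Type*} [Field R] [Good R] [Field F] [Algebra R F]
  [Field N] [Algebra R N] [Algebra F N] [IsScalarTower R F N] [Normal R N]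
  (Q : Quart R F) (φ : Fin 4 ≃ (F →ₐ[R] N))

omit [Good R] [Algebra F N] [IsScalarTower R F N] [Normal R N] in
theorem two_deg {j l : Fin 4} (hj : (0 : Fin 4) ≠ j) (hl : (0 : Fin 4) ≠ l) (hjl : j ≠ l)
    (h : (Q.zz φ 0 = Q.zz φ j ∧ Q.zz φ 0 = Q.zz φ l) ∨ (Q.ww φ 0 = Q.ww φ j ∧ Q.ww φ 0 = Q.ww φ l)) : False := by
  rcases h with ⟨h1, h2⟩ | ⟨h1, h2⟩
  · obtain ⟨-, -, h3, -⟩ := Q.deg_z φ hj h1
    obtain ⟨-, -, h4, -⟩ := Q.deg_z φ hl h2
    rcases Q.ne_pts φ hjl with h5 | h5
    · exact h5 (h1.symm.trans h2)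
    · exact h5 (by linear_combination h3 - h4)
  · obtain ⟨-, -, h3, -⟩ := Q.deg_w φ hj h1
    obtain ⟨-, -, h4, -⟩ := Q.deg_w φ hl h2
    rcases Q.ne_pts φ hjl with h5 | h5
    · exact h5 (by linear_combination h3 - h4)
    · exact h5 (h1.symm.trans h2)

omit [Good R] [Algebra F N] [IsScalarTower R F N] [Normal R N] in
theorem exists_nondeg : ∃ j : Fin 4, j ≠ 0 ∧ Q.sl φ 0 j ≠ 0 := by
  by_contra hcon
  push Not at hcon
  have h1 := Q.deg_cases φ (hcon 1 (by decide))
  have h2 := Q.deg_cases φ (hcon 2 (by decide))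
  have h3 := Q.deg_cases φ (hcon 3 (by decide))
  rcases h1 with h1 | h1 <;> rcases h2 with h2 | h2 <;> rcases h3 with h3 | h3
  · exact Q.two_deg φ (j := 1) (l := 2) (by decide) (by decide) (by decide) (Or.inl ⟨h1, h2⟩)
  · exact Q.two_deg φ (j := 1) (l := 2) (by decide) (by decide) (by decide) (Or.inl ⟨h1, h2⟩)
  · exact Q.two_deg φ (j := 1) (l := 3) (by decide) (by decide) (by decide) (Or.inl ⟨h1, h3⟩)
  · exact Q.two_deg φ (j := 2) (l := 3) (by decide) (by decide) (by decide) (Or.inr ⟨h2, h3⟩)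
  · exact Q.two_deg φ (j := 2) (l := 3) (by decide) (by decide) (by decide) (Or.inl ⟨h2, h3⟩)
  · exact Q.two_deg φ (j := 1) (l := 3) (by decide) (by decide) (by decide) (Or.inr ⟨h1, h3⟩)
  · exact Q.two_deg φ (j := 1) (l := 2) (by decide) (by decide) (by decide) (Or.inr ⟨h1, h2⟩)
  · exact Q.two_deg φ (j := 1) (l := 2) (by decide) (by decide) (by decide) (Or.inr ⟨h1, h2⟩)

omit [Good R] [Algebra F N] [IsScalarTower R F N] [Normal R N] in
include φ in
/-- the enumeration can be chosen such that the pair `0, 1` has a nonzero slope -/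
theorem exists_enum1 : ∃ φ' : Fin 4 ≃ (F →ₐ[R] N), Q.sl φ' 0 1 ≠ 0 := by
  obtain ⟨j, hj, h⟩ := Q.exists_nondeg φ
  refine ⟨(Equiv.swap 1 j).trans φ, ?_⟩
  have e0 : ((Equiv.swap 1 j).trans φ) 0 = φ 0 := by
    rw [Equiv.trans_apply, Equiv.swap_apply_of_ne_of_ne (by decide) hj.symm]
  have e1 : ((Equiv.swap 1 j).trans φ) 1 = φ j := by
    rw [Equiv.trans_apply, Equiv.swap_apply_left]
  unfold sl zz ww at h ⊢
  rw [e0, e1]
  exact h

end Quart

section main

variable {k R F N : Type u} [Field k] [IsAlgClosed k] [Good k] [Field R] [Good R] [Field F] [Field N]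
  [Algebra k R] [Algebra k F] [Algebra k N] [Algebra R F] [Algebra R N] [Algebra F N] [IsScalarTower k R F]
  [IsScalarTower k R N] [IsScalarTower R F N] [Normal R N] [FiniteDimensional R N] [Algebra.IsSeparable R N]
  (Q : Quart R F) (φ : Fin 4 ≃ (F →ₐ[R] N))

/-- the structure QD -/
theorem exists_qd0 (h : Q.sl φ 0 1 ≠ 0) {s t : R}
    (hst : AlgebraicIndependent k ![s, t]) (hgen : IntermediateField.adjoin k (Set.range ![t, s]) = ⊤)
    (c : Fin 10 → k[X]) (h0 : c 0 ≠ 0) (hb : Dbin c ≠ 0) (hd : Dsc c ≠ 0)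
    (heq : ∀ τ : N, algebraMap R N Q.b ^ 2 * τ ^ 6 - 4 * algebraMap R N Q.g * τ ^ 4 +
      4 * algebraMap R N Q.f * τ ^ 2 - algebraMap R N Q.a ^ 2 = 0 →
      cub (fun i => aeval (τ ^ 2) (c i)) (algebraMap R N s) (algebraMap R N t) = 0)
    (hdeg : ∀ j : Fin 4, j ≠ 0 → Q.sl φ 0 j = 0 → ∀ u : RPl k F → ℂ, HF k F u → ∃ C : ℂ,
      ∀ w : RPl k N, u (w.comap ((φ 0).restrictScalars k)) + u (w.comap ((φ j).restrictScalars k)) = C) :
    ∃ (F6 G : Type u) (_ : Field F6) (_ : Algebra k F6) (_ : Group G) (_ : Fintype G) (D : QD k F N F6 G),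
      D.cd.c = c := by
  obtain ⟨D, hDc, hDι⟩ := exists_cd Q φ (by decide : (0 : Fin 4) ≠ 1) h hst hgen c h0 hb hd heq
  obtain ⟨gι, hgι⟩ := Quart.exists_pair_compl φ (i := 0) (j := 1) (k := 2) (l := 3) (by decide) (by decide)
    (by decide) (by decide) (by decide) (by decide)
  have hgτ : gι (Q.sl φ 0 1) = -Q.sl φ 0 1 := by
    rw [Q.aut_sl, ← Q.sl_compl φ (i := 0) (j := 1) (k := 2) (l := 3) (by decide) (by decide)
      (by decide) (by decide) (by decide) (by decide)]
    rcases hgι with ⟨h1, h2⟩ | ⟨h1, h2⟩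
    · rw [h1, h2]
    · rw [h1, h2, Q.sl_symm]
  have hG : IsGalois R N := ⟨⟩
  have hgen' : IntermediateField.adjoin k (Set.range ![s, t]) = ⊤ := by
    have h1 : Set.range ![s, t] = Set.range ![t, s] := by
      ext x
      simp [Fin.exists_fin_two, or_comm]
    rw [h1, hgen]
  have hst' : AlgebraicIndependent k ![algebraMap R N s, algebraMap R N t] := by
    have h1 := hst.map' (f := IsScalarTower.toAlgHom k R N) (algebraMap R N).injective
    convert h1 using 1
    funext i
    fin_cases i <;> rfl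
  refine ⟨IntermediateField.adjoin R {Q.sl φ 0 1}, N ≃ₐ[R] N, inferInstance, inferInstance, inferInstance,
    inferInstance, ?_, ?_⟩
  · exact {
      ρ := rsHom
      e := fun i => (φ i).restrictScalars k
      act := actHom φ
      hact := fun g i x => perm_spec φ g i x
      trans := fun i j => perm_trans φ i j
      s := algebraMap R N s
      t := algebraMap R N t
      ind := hst'
      base := by
        intro z
        have hrb : z ∈ Set.range (algebraMap R N) ↔
            z ∈ IntermediateField.adjoin k {algebraMap R N s, algebraMap R N t} := range_base (v := ![s, t]) hgen' z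
        rw [← hrb]
        rw [IsGalois.mem_range_algebraMap_iff_fixed]
        rfl
      fixF := fun z => fix0 φ z
      e6 := (IntermediateField.adjoin R {Q.sl φ 0 1}).val.restrictScalars k
      fix6 := fun z => fix_pair Q φ (by decide) h z
      cd := D
      gι := gι
      hgι := hgι
      hι := fun z => hDι gι hgτ z
      pair := by
        intro j hj
        by_cases hs : Q.sl φ 0 j = 0
        · exact Or.inr (hdeg j hj hs)
        · left
          obtain ⟨σ, hσ⟩ := conj hst hgen (Q.sl_transc k φ h) (Q.sl_transc k φ hs) c h0 hd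
            (heq _ (Q.sl_res φ h)) (heq _ (Q.sl_res φ hs))
          refine ⟨σ, ?_⟩
          rw [Q.aut_sl] at hσ
          exact Q.sl_inj φ (Ne.symm hj) (fun h' => (by decide : (0 : Fin 4) ≠ 1) ((perm φ σ).injective h')) hs hσ }
  · exact hDc

end main

end Pool.Agent.Helper50.KS

end CX
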