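import Mathlib
import Pool.Agent.Helper40.CX.H50KS.WeiDef
import Pool.Agent.Helper40.CX.H83KPA.Coord

/-!
# Weierstrass forms of plane cubics and the invariants
-/

set_option autoImplicit false
set_option linter.unusedSectionVars false

namespace CX.KSq

open MvPolynomial CX.Pool.Agent.Helper83.KPA
open CX.Pool.Agent.Helper15.KP (PS PT Cl)
open CX.Pool.Agent.Helper83.PC (act act_map act_mul cub dcub mcub wei cub_act cub_wei)

variable {k : Type} [Field k]

lemma PS_wei (c a b : k) : PS (fun i => c * wei a b i) = c ^ 4 * (48 * a) := by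
  have h0 : wei a b 0 = -1 := rfl
  have h1 : wei a b 1 = 0 := rfl
  have h2 : wei a b 2 = 0 := rfl
  have h3 : wei a b 3 = 0 := rfl
  have h4 : wei a b 4 = 0 := rfl
  have h5 : wei a b 5 = -a := rfl
  have h6 : wei a b 6 = 0 := rfl
  have h7 : wei a b 7 = 1 := rfl
  have h8 : wei a b 8 = 0 := rfl
  have h9 : wei a b 9 = -b := rfl
  unfold PS
  simp only [h0, h1, h2, h3, h4, h5, h6, h7, h8, h9]
  ring

lemma PT_wei (c a b : k) : PT (fun i => c * wei a b i) = c ^ 6 * (864 * b) := by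
  have h0 : wei a b 0 = -1 := rfl
  have h1 : wei a b 1 = 0 := rfl
  have h2 : wei a b 2 = 0 := rfl
  have h3 : wei a b 3 = 0 := rfl
  have h4 : wei a b 4 = 0 := rfl
  have h5 : wei a b 5 = -a := rfl
  have h6 : wei a b 6 = 0 := rfl
  have h7 : wei a b 7 = 1 := rfl
  have h8 : wei a b 8 = 0 := rfl
  have h9 : wei a b 9 = -b := rfl
  unfold PT
  simp only [h0, h1, h2, h3, h4, h5, h6, h7, h8, h9]
  ring

lemma cubP_mul_wei (c a b : k) : cubP (fun i => c * wei a b i) =
    C c * (X 1 ^ 2 * X 2 - X 0 ^ 3 - C a * X 0 * X 2 ^ 2 - C b * X 2 ^ 3) := by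
  have h0 : wei a b 0 = -1 := rfl
  have h1 : wei a b 1 = 0 := rfl
  have h2 : wei a b 2 = 0 := rfl
  have h3 : wei a b 3 = 0 := rfl
  have h4 : wei a b 4 = 0 := rfl
  have h5 : wei a b 5 = -a := rfl
  have h6 : wei a b 6 = 0 := rfl
  have h7 : wei a b 7 = 1 := rfl
  have h8 : wei a b 8 = 0 := rfl
  have h9 : wei a b 9 = -b := rfl
  unfold cubP cub
  simp only [h0, h1, h2, h3, h4, h5, h6, h7, h8, h9, mul_zero, mul_one, mul_neg, C_neg, C_mul, C_0]
  ring

lemma bind_cubP (c : Fin 10 → k) (N : Matrix (Fin 3) (Fin 3) k) :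
    bind₁ (fun i => ∑ j, C (N i j) * X j) (cubP c) = cubP (act c N) := by
  have h1 := act_map (C : k →+* MvPolynomial (Fin 3) k) c N
  have h2 := cub_act (fun i => (C (c i) : MvPolynomial (Fin 3) k)) (N.map C) (X 0) (X 1) (X 2)
  have h3 : cubP (act c N) = cub (act (fun i => (C (c i) : MvPolynomial (Fin 3) k)) (N.map C)) (X 0) (X 1) (X 2) := by
    rw [h1]
    rfl
  rw [h3, h2]
  unfold cubP cub
  simp only [map_add, map_mul, map_pow, bind₁_X_right, algHom_C, algebraMap_eq, Fin.sum_univ_three,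
    Matrix.map_apply]

variable [IsAlgClosed k] [CX.Good k]

/-- The invariants of a cubic with a Weierstrass form. -/
theorem IsWei.inv {d : Fin 10 → k} {a b : k} (h : IsWei (cubP d) a b) :
    ∃ (N : Matrix (Fin 3) (Fin 3) k) (c : k), N.det ≠ 0 ∧ c ≠ 0 ∧ act d N = (fun i => c * wei a b i) ∧
      N.det ^ 4 * PS d = c ^ 4 * (48 * a) ∧ N.det ^ 6 * PT d = c ^ 6 * (864 * b) := by
  obtain ⟨N, c, hN, hc, h⟩ := h
  rw [bind_cubP, ← cubP_mul_wei] at h
  have h1 := cubP_inj h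
  have e : N.map (algebraMap k k) = N := by
    ext i j
    rfl
  have h2 := PS_act (k := k) d N
  have h3 := PT_act (k := k) d N
  rw [e, h1] at h2 h3
  refine ⟨N, c, hN, hc, h1, ?_, ?_⟩
  · rw [← PS_wei c a b, h2]
    rfl
  · rw [← PT_wei c a b, h3]
    rfl

/-- A Weierstrass cubic with nonzero discriminant is nonsingular. -/
lemma smooth_wei {c a b : k} (hc : c ≠ 0) (hd : 4 * a ^ 3 + 27 * b ^ 2 ≠ 0) (p : Fin 3 → k)
    (h : ∀ q, dcub (fun i => c * wei a b i) p q = 0) : p = 0 := by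
  have h0 : wei a b 0 = -1 := rfl
  have h1 : wei a b 1 = 0 := rfl
  have h2 : wei a b 2 = 0 := rfl
  have h3 : wei a b 3 = 0 := rfl
  have h4 : wei a b 4 = 0 := rfl
  have h5 : wei a b 5 = -a := rfl
  have h6 : wei a b 6 = 0 := rfl
  have h7 : wei a b 7 = 1 := rfl
  have h8 : wei a b 8 = 0 := rfl
  have h9 : wei a b 9 = -b := rfl
  have two : (2 : k) ≠ 0 := CX.Good.two
  have three : (3 : k) ≠ 0 := CX.Good.three
  have e0 := h (Pi.single 0 1)
  have e1 := h (Pi.single 1 1)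
  have e2 := h (Pi.single 2 1)
  unfold dcub at e0 e1 e2
  simp only [h0, h1, h2, h3, h4, h5, h6, h7, h8, h9, Pi.single_apply] at e0 e1 e2
  have n1 : ¬ (1 : Fin 3) = 0 := by decide
  have n2 : ¬ (2 : Fin 3) = 0 := by decide
  have n3 : ¬ (2 : Fin 3) = 1 := by decide
  have n4 : ¬ (0 : Fin 3) = 1 := by decide
  have n5 : ¬ (0 : Fin 3) = 2 := by decide
  have n6 : ¬ (1 : Fin 3) = 2 := by decide
  simp only [if_neg n1, if_neg n2, if_neg n3, if_neg n4, if_neg n5, if_neg n6, if_true] at e0 e1 e2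
  obtain ⟨x, hx⟩ : ∃ x, x = p 0 := ⟨_, rfl⟩
  obtain ⟨y, hy⟩ : ∃ y, y = p 1 := ⟨_, rfl⟩
  obtain ⟨z, hz⟩ : ∃ z, z = p 2 := ⟨_, rfl⟩
  rw [← hx, ← hy, ← hz] at e0 e1 e2
  have f0 : 3 * x ^ 2 + a * z ^ 2 = 0 := by
    apply mul_left_cancel₀ hc
    linear_combination -e0
  have f1 : y * z = 0 := by
    apply mul_left_cancel₀ (mul_ne_zero two hc)
    linear_combination e1
  have f2 : y ^ 2 - 2 * a * x * z - 3 * b * z ^ 2 = 0 := by
    apply mul_left_cancel₀ hc
    linear_combination e2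
  have hz0 : z = 0 := by
    by_contra hz0
    have hy0 : y = 0 := (mul_eq_zero.mp f1).resolve_right hz0
    have g1 : 2 * a * x + 3 * b * z = 0 := by
      apply mul_left_cancel₀ hz0
      rw [hy0] at f2
      linear_combination -f2
    apply hd
    have g2 : (4 * a ^ 3 + 27 * b ^ 2) * z ^ 2 = 0 := by
      linear_combination 4 * a ^ 2 * f0 - 3 * (2 * a * x - 3 * b * z) * g1
    exact (mul_eq_zero.mp g2).resolve_right (pow_ne_zero 2 hz0)
  have hx0 : x = 0 := by
    rw [hz0] at f0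
    have : 3 * x ^ 2 = 0 := by linear_combination f0
    exact pow_eq_zero_iff (n := 2) (by norm_num) |>.mp ((mul_eq_zero.mp this).resolve_left three)
  have hy0 : y = 0 := by
    rw [hz0] at f2
    have : y ^ 2 = 0 := by linear_combination f2
    exact pow_eq_zero_iff (n := 2) (by norm_num) |>.mp this
  funext i
  fin_cases i
  · exact hx ▸ hx0
  · exact hy ▸ hy0
  · exact hz ▸ hz0

variable {a b f g : MvPolynomial (Fin 3) k}

/-- A member of the pencil is nonsingular. -/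
theorem HasModuli.smooth (ha : a.IsHomogeneous 1) (hb : b.IsHomogeneous 1) (hf : f.IsHomogeneous 3)
    (hg : g.IsHomogeneous 3) (h : HasModuli a b f g) :
    ∃ l : k, ∀ p : Fin 3 → k, (∀ i, eval p (pderiv i (Cl a b f g l)) = 0) → p = 0 := by
  obtain ⟨l, -, a₁, b₁, -, -, h1, -, hd, -⟩ := h
  refine ⟨l, fun p hp => ?_⟩
  have e : pencil a b f g l = Cl a b f g l := rfl
  rw [e, Cl_eq ha hb hf hg l] at h1
  rw [Cl_eq ha hb hf hg l] at hp
  obtain ⟨N, c, hN, hc, hact, -, -⟩ := h1.inv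
  obtain ⟨d, hd'⟩ : ∃ d, d = fun i => (pen (lf a) (lf b) (cf f) (cf g) i).eval l := ⟨_, rfl⟩
  rw [← hd'] at hp hact
  have h2 : ∀ q, dcub d p q = 0 := by
    intro q
    have h3 : ∀ j, dcub d p (Pi.single j 1) = 0 := fun j => by rw [← eval_pderiv]; exact hp j
    have e0 := h3 0
    have e1 := h3 1
    have e2 := h3 2
    unfold dcub at e0 e1 e2 ⊢
    simp only [Pi.single_apply] at e0 e1 e2
    have n1 : ¬ (1 : Fin 3) = 0 := by decide
    have n2 : ¬ (2 : Fin 3) = 0 := by decide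
    have n3 : ¬ (2 : Fin 3) = 1 := by decide
    have n4 : ¬ (0 : Fin 3) = 1 := by decide
    have n5 : ¬ (0 : Fin 3) = 2 := by decide
    have n6 : ¬ (1 : Fin 3) = 2 := by decide
    simp only [if_neg n1, if_neg n2, if_neg n3, if_neg n4, if_neg n5, if_neg n6, if_true] at e0 e1 e2
    linear_combination q 0 * e0 + q 1 * e1 + q 2 * e2
  have hu : IsUnit N.det := isUnit_iff_ne_zero.2 hN
  have h4 : N⁻¹.mulVec p = 0 := by
    apply smooth_wei hc hd
    intro q
    rw [← hact, dcub_act, Matrix.mulVec_mulVec, Matrix.mul_nonsing_inv _ hu, Matrix.one_mulVec]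
    exact h2 _
  have h5 := congrArg N.mulVec h4
  rwa [Matrix.mulVec_mulVec, Matrix.mul_nonsing_inv _ hu, Matrix.one_mulVec, Matrix.mulVec_zero] at h5

/-- The invariants of the pencil are independent. -/
theorem HasModuli.indep (ha : a.IsHomogeneous 1) (hb : b.IsHomogeneous 1) (hf : f.IsHomogeneous 3)
    (hg : g.IsHomogeneous 3) (h : HasModuli a b f g) {c : Fin 10 → Polynomial k} {D : k} (hD : D ≠ 0)
    (hc : ∀ (l : k) (d : Fin 10 → k), Cl a b f g l = cubP d →
      Polynomial.eval l (PS c) = D ^ 4 * PS d ∧ Polynomial.eval l (PT c) = D ^ 6 * PT d)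
    {A B : Polynomial k} (hS : PS c = Polynomial.X ^ 2 * A) (hT : PT c = Polynomial.X ^ 3 * B) (α β : k)
    (hAB : Polynomial.C α * A ^ 3 = Polynomial.C β * B ^ 2) : α = 0 ∧ β = 0 := by
  obtain ⟨l₁, l₂, a₁, b₁, a₂, b₂, h1, h2, -, hj⟩ := h
  have two : (2 : k) ≠ 0 := CX.Good.two
  have three : (3 : k) ≠ 0 := CX.Good.three
  have key : ∀ (l a' b' : k), IsWei (pencil a b f g l) a' b' → α * (48 * a') ^ 3 = β * (864 * b') ^ 2 := by
    intro l a' b' h
    have e : pencil a b f g l = Cl a b f g l := rfl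
    rw [e, Cl_eq ha hb hf hg l] at h
    obtain ⟨N, m, hN, hm, -, hs, ht⟩ := h.inv
    obtain ⟨es, et⟩ := hc l _ (Cl_eq ha hb hf hg l)
    obtain ⟨d, hd'⟩ : ∃ d, d = fun i => (pen (lf a) (lf b) (cf f) (cf g) i).eval l := ⟨_, rfl⟩
    rw [← hd'] at hs ht es et
    have h3 : α * (Polynomial.eval l (PS c)) ^ 3 = β * (Polynomial.eval l (PT c)) ^ 2 := by
      have h4 := congrArg (Polynomial.eval l) hAB
      simp only [Polynomial.eval_mul, Polynomial.eval_C, Polynomial.eval_pow] at h4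
      rw [hS, hT]
      simp only [Polynomial.eval_mul, Polynomial.eval_pow, Polynomial.eval_X]
      linear_combination l ^ 6 * h4
    rw [es, et] at h3
    have h5 : α * (PS d) ^ 3 = β * (PT d) ^ 2 := by
      apply mul_left_cancel₀ (pow_ne_zero 12 hD)
      linear_combination h3
    apply mul_left_cancel₀ (pow_ne_zero 12 hm)
    have h6 : m ^ 12 * (α * (48 * a') ^ 3) = α * (m ^ 4 * (48 * a')) ^ 3 := by ring
    have h7 : m ^ 12 * (β * (864 * b') ^ 2) = β * (m ^ 6 * (864 * b')) ^ 2 := by ring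
    rw [h6, h7, ← hs, ← ht]
    linear_combination N.det ^ 12 * h5
  have k1 := key l₁ a₁ b₁ h1
  have k2 := key l₂ a₂ b₂ h2
  have n48 : (48 : k) ≠ 0 := by
    have h := CX.Good.ne' (K := k) (n := 48) 4 1 rfl
    exact_mod_cast h
  have n864 : (864 : k) ≠ 0 := by
    have h := CX.Good.ne' (K := k) (n := 864) 5 3 rfl
    exact_mod_cast h
  by_contra hcon
  apply hj
  by_cases hα : α = 0
  · have hβ : β ≠ 0 := fun h => hcon ⟨hα, h⟩
    have hb1 : b₁ = 0 := by
      rw [hα, zero_mul] at k1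
      have h8 := (mul_eq_zero.mp k1.symm).resolve_left hβ
      exact (mul_eq_zero.mp (pow_eq_zero_iff (n := 2) (by norm_num) |>.mp h8)).resolve_left n864
    have hb2 : b₂ = 0 := by
      rw [hα, zero_mul] at k2
      have h8 := (mul_eq_zero.mp k2.symm).resolve_left hβ
      exact (mul_eq_zero.mp (pow_eq_zero_iff (n := 2) (by norm_num) |>.mp h8)).resolve_left n864
    rw [hb1, hb2]
    ring
  · apply mul_left_cancel₀ (mul_ne_zero hα (mul_ne_zero (pow_ne_zero 3 n48) (pow_ne_zero 2 n864)))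
    linear_combination 864 ^ 2 * b₂ ^ 2 * k1 - 864 ^ 2 * b₁ ^ 2 * k2

end CX.KSq
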